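import Pool.Agent.H62.Split3

/-!
A min-max formula for the maximum number of pairs that can be split off at a vertex `s` of a
digraph while preserving `k`-arc-connectivity in `V`.
-/

set_option linter.unusedSectionVars false
set_option linter.unusedVariables false

namespace Pool.Agent.Results.MP_79518d_co.MinMax

open Finset Pool.Agent.H62.Split

/-! ### Definitions

A finite digraph with vertex set `W`, parallel arcs allowed, is given by its arc multiplicities:
a function `D : W → W → ℕ`, where `D x y` is the number of arcs from `x` to `y`.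
The vertex set `V + s` is `Option V`, with `s = none`. -/

section defs

variable {W : Type*} [Fintype W] [DecidableEq W]

/-- `ρ(X)`: the number of arcs entering `X`. -/
def rho (D : W → W → ℕ) (X : Finset W) : ℕ := ∑ x ∈ Xᶜ, ∑ y ∈ X, D x y

/-- `δ(X)`: the number of arcs leaving `X`. -/
def delta (D : W → W → ℕ) (X : Finset W) : ℕ := ∑ x ∈ X, ∑ y ∈ Xᶜ, D x y

variable {V : Type*} [Fintype V] [DecidableEq V]

/-- A subset of `V`, seen as a subset of `V + s`. -/
def inV (X : Finset V) : Finset (Option V) := X.map Function.Embedding.some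

/-- `D` is `k`-arc-connected in `V`. -/
def ArcConnectedInV (D : Option V → Option V → ℕ) (k : ℕ) : Prop :=
  ∀ X : Finset V, X.Nonempty → X ≠ univ → k ≤ rho D (inV X) ∧ k ≤ delta D (inV X)

/-- `F` describes a family of pairwise disjoint pairs `(us, sv)`, where `F u v` is the number of
pairs of the family consisting of an arc from `u` to `s` and an arc from `s` to `v`. -/
def IsPairFamily (D : Option V → Option V → ℕ) (F : V → V → ℕ) : Prop :=
  (∀ u, ∑ v, F u v ≤ D (some u) none) ∧ ∀ v, ∑ u, F u v ≤ D none (some v)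

/-- The digraph obtained by splitting off all pairs of the family (loops are discarded). -/
def splitOff (D : Option V → Option V → ℕ) (F : V → V → ℕ) : Option V → Option V → ℕ
  | some u, some v => D (some u) (some v) + if u = v then 0 else F u v
  | some u, none => D (some u) none - ∑ v, F u v
  | none, some v => D none (some v) - ∑ u, F u v
  | none, none => D none none

/-- The numbers of pairs of the admissible families at `s`. -/
def admissibleSizes (D : Option V → Option V → ℕ) (k : ℕ) : Set ℕ :=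
  {m | ∃ F : V → V → ℕ, IsPairFamily D F ∧ ArcConnectedInV (splitOff D F) k ∧
    ∑ u, ∑ v, F u v = m}

/-- A family of nonempty proper subsets of `V` any two distinct of which have union `V`. -/
def CoDisjoint (R : Finset (Finset V)) : Prop :=
  (∀ X ∈ R, X.Nonempty ∧ X ≠ univ) ∧ ∀ X ∈ R, ∀ Y ∈ R, X ≠ Y → X ∪ Y = univ

/-- `∑ (ρ(X) - k)` over the members `X` of the family. -/
def excess (D : Option V → Option V → ℕ) (k : ℕ) (R : Finset (Finset V)) : ℕ :=
  ∑ X ∈ R, (rho D (inV X) - k)

/-- `δ(s, P)`: the number of arcs from `s` to the union `P` of the complements of the members. -/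
def outToComplements (D : Option V → Option V → ℕ) (R : Finset (Finset V)) : ℕ :=
  ∑ v ∈ R.biUnion (fun X => Xᶜ), D none (some v)

/-- The upper bounds of the min-max formula: `δ(s)`; for co-disjoint families of `r ≥ 2` sets,
`⌊(∑ (ρ(X) - k) + δ(s, P)) / (r - 1)⌋`; for co-disjoint families of `r ≥ 3` sets,
`⌊∑ (ρ(X) - k) / (r - 2)⌋`. -/
def bounds (D : Option V → Option V → ℕ) (k : ℕ) : Set ℕ :=
  {b | b = delta D {none} ∨
    (∃ R : Finset (Finset V), CoDisjoint R ∧ 2 ≤ R.card ∧
      b = (excess D k R + outToComplements D R) / (R.card - 1)) ∨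
    (∃ R : Finset (Finset V), CoDisjoint R ∧ 3 ≤ R.card ∧ b = excess D k R / (R.card - 2))}

/-- The digraph with all arcs reversed. -/
def reverse (D : W → W → ℕ) : W → W → ℕ := fun x y => D y x

end defs

section aux

variable {V : Type*} [Fintype V] [DecidableEq V]

lemma inV_compl (X : Finset V) : (inV X)ᶜ = insert none (inV Xᶜ) := by
  ext x
  cases x with
  | none => simp [inV]
  | some v => simp [inV]

lemma sum_inV (X : Finset V) (f : Option V → ℕ) : ∑ x ∈ inV X, f x = ∑ v ∈ X, f (some v) := by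
  simp [inV]

lemma sum_inV_compl (X : Finset V) (f : Option V → ℕ) :
    ∑ x ∈ (inV X)ᶜ, f x = f none + ∑ v ∈ Xᶜ, f (some v) := by
  rw [inV_compl, sum_insert (by simp [inV]), sum_inV]

lemma rho_inV (D : Option V → Option V → ℕ) (X : Finset V) :
    rho D (inV X) = ∑ v ∈ X, D none (some v) + ∑ u ∈ Xᶜ, ∑ v ∈ X, D (some u) (some v) := by
  rw [rho, sum_inV_compl]
  simp only [sum_inV]

lemma delta_inV (D : Option V → Option V → ℕ) (X : Finset V) :
    delta D (inV X) = ∑ u ∈ X, D (some u) none + ∑ u ∈ X, ∑ v ∈ Xᶜ, D (some u) (some v) := by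
  rw [delta, sum_inV]
  simp only [sum_inV_compl, sum_add_distrib]

lemma none_eq : ({none} : Finset (Option V))ᶜ = inV univ := by
  ext x
  cases x with
  | none => simp [inV]
  | some v => simp [inV]

lemma delta_s (D : Option V → Option V → ℕ) :
    delta D {none} = ∑ v, D none (some v) := by
  rw [delta, sum_singleton, none_eq, sum_inV]

lemma rho_s (D : Option V → Option V → ℕ) :
    rho D {none} = ∑ v, D (some v) none := by
  rw [rho, none_eq, sum_inV]
  simp

/-- the in-degree after splitting -/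
lemma rho_split (D : Option V → Option V → ℕ) (F : V → V → ℕ) (hF : IsPairFamily D F)
    (X : Finset V) :
    rho (splitOff D F) (inV X) + ∑ u ∈ X, ∑ v ∈ X, F u v = rho D (inV X) := by
  rw [rho_inV, rho_inV]
  have e1 : ∑ v ∈ X, splitOff D F none (some v) + ∑ v ∈ X, ∑ u, F u v =
      ∑ v ∈ X, D none (some v) := by
    rw [← sum_add_distrib]
    apply sum_congr rfl
    intro v _
    simp only [splitOff]
    exact Nat.sub_add_cancel (hF.2 v)
  have e2 : ∑ u ∈ Xᶜ, ∑ v ∈ X, splitOff D F (some u) (some v) =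
      ∑ u ∈ Xᶜ, ∑ v ∈ X, D (some u) (some v) + ∑ u ∈ Xᶜ, ∑ v ∈ X, F u v := by
    rw [← sum_add_distrib]
    apply sum_congr rfl
    intro u hu
    rw [← sum_add_distrib]
    apply sum_congr rfl
    intro v hv
    have : u ≠ v := fun e => (mem_compl.1 hu) (e ▸ hv)
    simp [splitOff, this]
  have e3 : ∑ v ∈ X, ∑ u, F u v = ∑ u ∈ X, ∑ v ∈ X, F u v + ∑ u ∈ Xᶜ, ∑ v ∈ X, F u v := by
    rw [sum_add_sum_compl, sum_comm]
  omega

/-- the out-degree after splitting -/
lemma delta_split (D : Option V → Option V → ℕ) (F : V → V → ℕ) (hF : IsPairFamily D F)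
    (X : Finset V) :
    delta (splitOff D F) (inV X) + ∑ u ∈ X, ∑ v ∈ X, F u v = delta D (inV X) := by
  rw [delta_inV, delta_inV]
  have e1 : ∑ u ∈ X, splitOff D F (some u) none + ∑ u ∈ X, ∑ v, F u v =
      ∑ u ∈ X, D (some u) none := by
    rw [← sum_add_distrib]
    apply sum_congr rfl
    intro u _
    simp only [splitOff]
    exact Nat.sub_add_cancel (hF.1 u)
  have e2 : ∑ u ∈ X, ∑ v ∈ Xᶜ, splitOff D F (some u) (some v) =
      ∑ u ∈ X, ∑ v ∈ Xᶜ, D (some u) (some v) + ∑ u ∈ X, ∑ v ∈ Xᶜ, F u v := by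
    rw [← sum_add_distrib]
    apply sum_congr rfl
    intro u hu
    rw [← sum_add_distrib]
    apply sum_congr rfl
    intro v hv
    have : u ≠ v := fun e => (mem_compl.1 hv) (e ▸ hu)
    simp [splitOff, this]
  have e3 : ∑ u ∈ X, ∑ v, F u v = ∑ u ∈ X, ∑ v ∈ X, F u v + ∑ u ∈ X, ∑ v ∈ Xᶜ, F u v := by
    rw [← sum_add_distrib]
    apply sum_congr rfl
    intro u _
    rw [sum_add_sum_compl]
  omega

lemma conn_split_iff (D : Option V → Option V → ℕ) (k : ℕ) (F : V → V → ℕ)
    (hF : IsPairFamily D F) :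
    ArcConnectedInV (splitOff D F) k ↔ ∀ X : Finset V, X.Nonempty → X ≠ univ →
      k + ∑ u ∈ X, ∑ v ∈ X, F u v ≤ rho D (inV X) ∧
      k + ∑ u ∈ X, ∑ v ∈ X, F u v ≤ delta D (inV X) := by
  unfold ArcConnectedInV
  refine forall_congr' fun X => forall_congr' fun _ => forall_congr' fun _ => ?_
  have e1 := rho_split D F hF X
  have e2 := delta_split D F hF X
  constructor <;> rintro ⟨a, b⟩ <;> constructor <;> omega

/-- submodularity of the out-degree function inside `V` -/
lemma cut_submod (d : V → V → ℕ) (X Y : Finset V) :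
    ∑ u ∈ X ∩ Y, ∑ v ∈ (X ∩ Y)ᶜ, d u v + ∑ u ∈ X ∪ Y, ∑ v ∈ (X ∪ Y)ᶜ, d u v ≤
      ∑ u ∈ X, ∑ v ∈ Xᶜ, d u v + ∑ u ∈ Y, ∑ v ∈ Yᶜ, d u v := by
  have key : ∀ Z : Finset V, ∑ u ∈ Z, ∑ v ∈ Zᶜ, d u v =
      ∑ u, ∑ v, if (u ∈ Z ∧ v ∉ Z) then d u v else 0 := by
    intro Z
    have h1 : ∀ (S : Finset V) (f : V → ℕ), ∑ u ∈ S, f u = ∑ u, if u ∈ S then f u else 0 := by
      intro S f
      simp [Finset.sum_ite_mem]
    rw [h1 Z]
    apply sum_congr rfl
    intro u _
    by_cases hu : u ∈ Z
    · simp only [hu, if_true, true_and]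
      rw [h1 Zᶜ]
      simp only [mem_compl]
    · simp [hu]
  rw [key, key, key, key, ← sum_add_distrib, ← sum_add_distrib]
  apply sum_le_sum
  intro u _
  rw [← sum_add_distrib, ← sum_add_distrib]
  apply sum_le_sum
  intro v _
  simp only [mem_inter, mem_union]
  by_cases a : u ∈ X <;> by_cases b : v ∈ X <;> by_cases c : u ∈ Y <;> by_cases e : v ∈ Y <;>
    simp [a, b, c, e]

lemma disj_of_coDisjoint {R : Finset (Finset V)} (hR : CoDisjoint R) :
    (R : Set (Finset V)).PairwiseDisjoint (fun X => Xᶜ) := by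
  intro X hX Y hY hne
  have h := hR.2 X hX Y hY hne
  show Disjoint Xᶜ Yᶜ
  rw [disjoint_iff_inter_eq_empty, ← compl_union, h, compl_univ]

/-- Necessity of the bounds. -/
lemma le_bounds (D : Option V → Option V → ℕ) (k m : ℕ) (hm : m ∈ admissibleSizes D k) :
    ∀ b ∈ bounds D k, m ≤ b := by
  obtain ⟨F, hF, hc, rfl⟩ := hm
  rw [conn_split_iff D k F hF] at hc
  have hmain : ∀ R : Finset (Finset V), CoDisjoint R →
      R.card * ∑ u, ∑ v, F u v ≤ excess D k R + ∑ v ∈ R.biUnion (fun X => Xᶜ), ∑ u, F u v +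
        ∑ u, ∑ v, F u v := by
    intro R hR
    have hd := disj_of_coDisjoint hR
    have h1 : ∀ X ∈ R, ∑ u, ∑ v, F u v ≤
        (rho D (inV X) - k) + ∑ v ∈ Xᶜ, ∑ u, F u v + ∑ u ∈ Xᶜ, ∑ v, F u v := by
      intro X hX
      have a1 := (hc X (hR.1 X hX).1 (hR.1 X hX).2).1
      have a2 : ∑ u, ∑ v, F u v = ∑ u ∈ X, ∑ v, F u v + ∑ u ∈ Xᶜ, ∑ v, F u v :=
        (sum_add_sum_compl X _).symm
      have a3 : ∑ u ∈ X, ∑ v, F u v = ∑ u ∈ X, ∑ v ∈ X, F u v + ∑ u ∈ X, ∑ v ∈ Xᶜ, F u v := by
        rw [← sum_add_distrib]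
        exact sum_congr rfl (fun u _ => (sum_add_sum_compl X _).symm)
      have a4 : ∑ u ∈ X, ∑ v ∈ Xᶜ, F u v ≤ ∑ v ∈ Xᶜ, ∑ u, F u v := by
        rw [sum_comm]
        apply sum_le_sum
        intro v _
        exact sum_le_sum_of_subset (subset_univ X)
      omega
    have h2 := sum_le_sum h1
    rw [sum_const, nsmul_eq_mul, sum_add_distrib, sum_add_distrib] at h2
    rw [← sum_biUnion hd, ← sum_biUnion hd] at h2
    have h3 : ∑ u ∈ R.biUnion (fun X => Xᶜ), ∑ v, F u v ≤ ∑ u, ∑ v, F u v :=
      sum_le_sum_of_subset (subset_univ _)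
    simp only [Nat.cast_id] at h2
    unfold excess
    omega
  rintro b (rfl | ⟨R, hR, hcard, rfl⟩ | ⟨R, hR, hcard, rfl⟩)
  · rw [delta_s, sum_comm]
    exact sum_le_sum (fun v _ => hF.2 v)
  · rw [Nat.le_div_iff_mul_le (by omega)]
    have h1 := hmain R hR
    have h2 : ∑ v ∈ R.biUnion (fun X => Xᶜ), ∑ u, F u v ≤ outToComplements D R :=
      sum_le_sum (fun v _ => hF.2 v)
    obtain ⟨c, hc'⟩ : ∃ c, R.card = c + 1 := ⟨R.card - 1, by omega⟩
    rw [hc'] at h1 ⊢
    rw [add_mul, one_mul] at h1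
    rw [Nat.add_sub_cancel, mul_comm]
    omega
  · rw [Nat.le_div_iff_mul_le (by omega)]
    have h1 := hmain R hR
    have h2 : ∑ v ∈ R.biUnion (fun X => Xᶜ), ∑ u, F u v ≤ ∑ u, ∑ v, F u v := by
      rw [sum_comm (s := univ)]
      exact sum_le_sum_of_subset (subset_univ _)
    obtain ⟨c, hc'⟩ : ∃ c, R.card = c + 2 := ⟨R.card - 2, by omega⟩
    rw [hc'] at h1 ⊢
    rw [add_mul] at h1
    rw [Nat.add_sub_cancel, mul_comm]
    omega

/-- Sufficiency of the bounds. -/
lemma mem_sizes (D : Option V → Option V → ℕ) (k m : ℕ) (hD : ArcConnectedInV D k)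
    (hs : delta D {none} ≤ rho D {none}) (hm : ∀ b ∈ bounds D k, m ≤ b) :
    m ∈ admissibleSizes D k := by
  classical
  set κ : Finset V → ℤ := fun X => (k : ℤ) - ((∑ u ∈ X, ∑ v ∈ Xᶜ, D (some u) (some v) : ℕ) : ℤ)
    with hκ
  rw [delta_s, rho_s] at hs
  have hR : ∀ X : Finset V, ((rho D (inV X) : ℕ) : ℤ) - k =
      ∑ v ∈ X, ((D none (some v) : ℕ) : ℤ) - κ Xᶜ := by
    intro X
    rw [rho_inV]
    simp only [hκ, compl_compl]
    push_cast
    ring
  have hDl : ∀ X : Finset V, ((delta D (inV X) : ℕ) : ℤ) - k =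
      ∑ v ∈ X, ((D (some v) none : ℕ) : ℤ) - κ X := by
    intro X
    rw [delta_inV]
    simp only [hκ]
    push_cast
    ring
  have hPNc : ∀ X : Finset V, PN X → PN Xᶜ := by
    intro X hX
    exact ⟨by
        rw [nonempty_iff_ne_empty]; intro e; rw [compl_eq_empty_iff] at e; exact hX.2 e, by
        intro e; rw [compl_eq_univ_iff] at e; exact (nonempty_iff_ne_empty.1 hX.1) e⟩
  obtain ⟨F, hF0, hFout, hFin, hFm, hFX⟩ := main_suff κ (fun v => ((D (some v) none : ℕ) : ℤ))
    (fun v => ((D none (some v) : ℕ) : ℤ)) (by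
      intro X Y
      have := cut_submod (fun u v => D (some u) (some v)) X Y
      simp only [hκ]
      have h' : ((∑ u ∈ X ∩ Y, ∑ v ∈ (X ∩ Y)ᶜ, D (some u) (some v) : ℕ) : ℤ) +
          ((∑ u ∈ X ∪ Y, ∑ v ∈ (X ∪ Y)ᶜ, D (some u) (some v) : ℕ) : ℤ) ≤
          ((∑ u ∈ X, ∑ v ∈ Xᶜ, D (some u) (some v) : ℕ) : ℤ) +
          ((∑ u ∈ Y, ∑ v ∈ Yᶜ, D (some u) (some v) : ℕ) : ℤ) := by exact_mod_cast this
      linarith)
    (fun v => by positivity) (fun v => by positivity)
    (by
      intro Y hY
      have e1 := hDl Y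
      have e2 := (hD Y hY.1 hY.2).2
      have e3 : (k : ℤ) ≤ ((delta D (inV Y) : ℕ) : ℤ) := by exact_mod_cast e2
      linarith)
    (by
      intro Y hY
      have e1 := hR Yᶜ
      rw [compl_compl] at e1
      have e2 := (hD Yᶜ (hPNc Y hY).1 (hPNc Y hY).2).1
      have e3 : (k : ℤ) ≤ ((rho D (inV Yᶜ) : ℕ) : ℤ) := by exact_mod_cast e2
      linarith)
    (by exact_mod_cast hs) (m : ℤ) (by positivity)
    (by
      have := hm _ (Or.inl rfl)
      rw [delta_s] at this
      exact_mod_cast this)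
    (by
      intro 𝓟 hP hd hcard
      -- the co-disjoint family of complements
      set R : Finset (Finset V) := 𝓟.image (fun X => Xᶜ) with hRdef
      have hinj : ∀ X ∈ 𝓟, ∀ Y ∈ 𝓟, Xᶜ = Yᶜ → X = Y := fun X _ Y _ e => compl_injective e
      have hRco : CoDisjoint R := by
        constructor
        · intro X hX
          obtain ⟨Y, hY, rfl⟩ := mem_image.1 hX
          exact hPNc Y (hP Y hY)
        · intro X hX Y hY hne
          obtain ⟨X', hX', rfl⟩ := mem_image.1 hX
          obtain ⟨Y', hY', rfl⟩ := mem_image.1 hY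
          have hne' : X' ≠ Y' := fun e => hne (by rw [e])
          rw [← compl_inter, disjoint_iff_inter_eq_empty.1 (hd X' hX' Y' hY' hne'), compl_empty]
      have hRcard : R.card = 𝓟.card := card_image_of_injOn (fun X hX Y hY e => hinj X hX Y hY e)
      have hRex : ((excess D k R : ℕ) : ℤ) = ∑ P ∈ 𝓟,
          (∑ x ∈ Pᶜ, ((D none (some x) : ℕ) : ℤ) - κ P) := by
        unfold excess
        rw [hRdef, sum_image hinj]
        push_cast
        apply sum_congr rfl
        intro P hP'
        have e1 := hR Pᶜ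
        rw [compl_compl] at e1
        rw [← e1, Nat.cast_sub ((hD Pᶜ (hPNc P (hP P hP')).1 (hPNc P (hP P hP')).2).1)]
      have hRout : outToComplements D R = ∑ v ∈ 𝓟.biUnion id, D none (some v) := by
        unfold outToComplements
        congr 1
        rw [hRdef, image_biUnion]
        ext x
        simp
      rw [← hRex]
      have b1 := hm _ (Or.inr (Or.inl ⟨R, hRco, by omega, rfl⟩))
      rw [Nat.le_div_iff_mul_le (by omega), hRcard, hRout] at b1
      have b2 : (𝓟.card - 2) * m ≤ excess D k R := by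
        by_cases h3 : 3 ≤ 𝓟.card
        · have b2 := hm _ (Or.inr (Or.inr ⟨R, hRco, by omega, rfl⟩))
          rw [Nat.le_div_iff_mul_le (by omega), hRcard] at b2
          rw [mul_comm]
          exact b2
        · have : 𝓟.card - 2 = 0 := by omega
          rw [this]; simp
      obtain ⟨c, hc⟩ : ∃ c, 𝓟.card = c + 2 := ⟨𝓟.card - 2, by omega⟩
      rw [hc] at b1 b2 ⊢
      have e1 : c + 2 - 1 = c + 1 := by omega
      have e2 : c + 2 - 2 = c := by omega
      rw [e1] at b1
      rw [e2] at b2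
      have b1' : (m : ℤ) * (c + 1) ≤ ((excess D k R : ℕ) : ℤ) +
          ∑ v ∈ 𝓟.biUnion id, ((D none (some v) : ℕ) : ℤ) := by exact_mod_cast b1
      have b2' : (c : ℤ) * m ≤ ((excess D k R : ℕ) : ℤ) := by exact_mod_cast b2
      push_cast
      rcases max_cases 0 ((m : ℤ) - ∑ v ∈ 𝓟.biUnion id, ((D none (some v) : ℕ) : ℤ)) with
        ⟨h, -⟩ | ⟨h, -⟩
      · rw [h]; linarith
      · rw [h]; linarith)
  -- convert to natural numbers
  have hcast : ∀ u v, ((F u v).toNat : ℤ) = F u v := fun u v => Int.toNat_of_nonneg (hF0 u v)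
  have hFam : IsPairFamily D (fun u v => (F u v).toNat) := by
    constructor
    · intro u
      have := hFin u
      zify
      simp only [hcast]
      exact this
    · intro v
      have := hFout v
      zify
      simp only [hcast]
      exact this
  refine ⟨fun u v => (F u v).toNat, hFam, ?_, ?_⟩
  · rw [conn_split_iff D k _ hFam]
    intro X hX1 hX2
    have e1 := (hFX X ⟨hX1, hX2⟩).1
    have e2 := (hFX X ⟨hX1, hX2⟩).2
    have e3 := hR X
    have e4 := hDl X
    constructor
    · zify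
      simp only [hcast]
      linarith
    · zify
      simp only [hcast]
      linarith
  · zify
    simp only [hcast]
    exact hFm

lemma sizes_eq (D : Option V → Option V → ℕ) (k : ℕ) (hD : ArcConnectedInV D k)
    (hs : delta D {none} ≤ rho D {none}) :
    ∃ M, IsGreatest (admissibleSizes D k) M ∧ IsLeast (bounds D k) M := by
  have hne : (bounds D k).Nonempty := ⟨_, Or.inl rfl⟩
  refine ⟨sInf (bounds D k), ⟨mem_sizes D k _ hD hs (fun b hb => Nat.sInf_le hb), ?_⟩,
    ⟨Nat.sInf_mem hne, fun b hb => Nat.sInf_le hb⟩⟩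
  intro m hm
  exact le_bounds D k m hm _ (Nat.sInf_mem hne)

lemma rho_reverse {W : Type*} [Fintype W] [DecidableEq W] (D : W → W → ℕ) (X : Finset W) :
    rho (reverse D) X = delta D X := by
  unfold rho delta reverse
  rw [sum_comm]

lemma delta_reverse {W : Type*} [Fintype W] [DecidableEq W] (D : W → W → ℕ) (X : Finset W) :
    delta (reverse D) X = rho D X := by
  unfold rho delta reverse
  rw [sum_comm]

lemma conn_reverse (D : Option V → Option V → ℕ) (k : ℕ) (hD : ArcConnectedInV D k) :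
    ArcConnectedInV (reverse D) k := by
  intro X h1 h2
  rw [rho_reverse, delta_reverse]
  exact (hD X h1 h2).symm

lemma sizes_reverse_sub (D : Option V → Option V → ℕ) (k : ℕ) :
    admissibleSizes D k ⊆ admissibleSizes (reverse D) k := by
  rintro m ⟨F, hF, hc, rfl⟩
  refine ⟨fun u v => F v u, ⟨hF.2, hF.1⟩, ?_, sum_comm⟩
  have : splitOff (reverse D) (fun u v => F v u) = reverse (splitOff D F) := by
    funext x y
    cases x <;> cases y <;> simp [splitOff, reverse, eq_comm]
  rw [this]
  exact conn_reverse _ k hc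

lemma sizes_reverse (D : Option V → Option V → ℕ) (k : ℕ) :
    admissibleSizes (reverse D) k = admissibleSizes D k :=
  Set.Subset.antisymm (sizes_reverse_sub (reverse D) k) (sizes_reverse_sub D k)

end aux

/-- **Min-max formula for maximum incomplete splitting-off at a vertex of a digraph.**
Let `D` be a finite digraph on `V + s` that is `k`-arc-connected in `V`. If `δ(s) ≤ ρ(s)`, then the
maximum number of pairs in an admissible family at `s` equals the minimum of `bounds D k`. If
`ρ(s) ≤ δ(s)`, the same holds with the bounds of the reversed digraph. -/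
theorem result {V : Type*} [Fintype V] [DecidableEq V] (D : Option V → Option V → ℕ) (k : ℕ)
    (hD : ArcConnectedInV D k) :
    (delta D {none} ≤ rho D {none} →
      ∃ M, IsGreatest (admissibleSizes D k) M ∧ IsLeast (bounds D k) M) ∧
    (rho D {none} ≤ delta D {none} →
      ∃ M, IsGreatest (admissibleSizes D k) M ∧ IsLeast (bounds (reverse D) k) M) := by
  refine ⟨sizes_eq D k hD, fun hs => ?_⟩
  have h := sizes_eq (reverse D) k (conn_reverse D k hD)
    (by rw [delta_reverse, rho_reverse]; exact hs)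
  rw [sizes_reverse] at h
  exact h

end Pool.Agent.Results.MP_79518d_co.MinMax
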